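import Pool.Agent.FHQ.StmtsG

/-! Row FHD of squad FHQ. -/

namespace Pool.Agent.FHQ.H67

open Pool.Agent.FHQ

theorem fhd (tup : TupStmt) (sup : SupStmt) (chd : ChdStmt) (fhk : FhkStmt) : FhdStmt := by
  classical
  intro d n S hS α hα
  obtain ⟨n', p₁, hCH⟩ := chd d n (2 ^ d) S hS
  have hα₁ : 0 < α / ((d + 1 : ℕ) : ℝ) ^ (d + 1) := by positivity
  obtain ⟨α', hα', hsup⟩ := sup (d + 1) (2 ^ d) n' _ (by omega) (by positivity) hα₁
  obtain ⟨β, hβ, p₂, hfh⟩ := fhk d n S hS α' hα'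
  refine ⟨β, hβ, max p₁ p₂, ?_⟩
  intro p _ K _ A hp N hN b hcount
  have h1 := tup (d + 1) N α (by omega) hα hN
    {s : Finset (Fin N) | s.card = d + 1 ∧
      ∃ x : Fin d → K, ∀ i ∈ s, S p K A (Fin.append x (b i))} (fun s hs => hs.1) hcount
  have h2 : ({f : Fin (d + 1) → Fin N | Finset.image f Finset.univ ∈
      {s : Finset (Fin N) | s.card = d + 1 ∧
        ∃ x : Fin d → K, ∀ i ∈ s, S p K A (Fin.append x (b i))}}.ncard : ℝ) ≤
      ({f : Fin (d + 1) → Fin N | ∃ x : Fin d → K, ∀ j,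
        S p K A (Fin.append x (b (f j)))}.ncard : ℝ) := by
    have h3 := Set.ncard_le_ncard (s := {f : Fin (d + 1) → Fin N | Finset.image f Finset.univ ∈
      {s : Finset (Fin N) | s.card = d + 1 ∧
        ∃ x : Fin d → K, ∀ i ∈ s, S p K A (Fin.append x (b i))}})
      (t := {f : Fin (d + 1) → Fin N | ∃ x : Fin d → K, ∀ j,
        S p K A (Fin.append x (b (f j)))}) (by
        rintro f ⟨_, x, hx⟩
        exact ⟨x, fun j => hx _ (Finset.mem_image_of_mem f (Finset.mem_univ j))⟩) (Set.toFinite _)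
    exact_mod_cast h3
  have h3 := hsup N {f : Fin (d + 1) → Fin N | ∃ x : Fin d → K, ∀ j,
      S p K A (Fin.append x (b (f j)))}
    {f : Fin (2 ^ d) → Fin N | ∃ x : Fin d → K, ∀ j, S p K A (Fin.append x (b (f j)))} (by
      intro g hg
      obtain ⟨j, l, hl, x, hx⟩ := hCH p K A (le_trans (le_max_left _ _) hp)
        (fun j l => b (g j l)) hg
      exact ⟨j, l, hl, x, hx⟩) (h1.trans h2)
  obtain ⟨x, hx⟩ := hfh p K A (le_trans (le_max_right _ _) hp) N b h3
  refine ⟨Finset.univ.filter fun i => S p K A (Fin.append x (b i)), ?_, x, ?_⟩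
  · refine hx.trans (le_of_eq ?_)
    congr 1
    rw [← Set.ncard_coe_finset]
    congr 1
    ext i
    simp
  · intro i hi
    exact (Finset.mem_filter.mp hi).2

end Pool.Agent.FHQ.H67
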